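import Pool.Agent.X181.SIC.Basic

/-!
# Antiunitary symmetries and even dimensions
-/

set_option autoImplicit false

namespace Pool.Agent.X181.SIC

open Finset Complex

variable {D : ℕ} [NeZero D]

theorem norm_zeta' {ψ : ZMod D → ℂ} (h : ∑ j, ‖ψ j‖ ^ 2 = 1) {u : ZMod D} (hu : u * u = 1) {ζ : ℂ}
    {c v : ZMod D} (hs : ∀ j, star (ψ j) = ζ * (ZMod.stdAddChar (c * j) * ψ (u * j + v))) :
    ‖ζ‖ = 1 := by
  have hunit : IsUnit u := IsUnit.of_mul_eq_one u hu
  have h1 : ∑ j, ‖ψ (u * j + v)‖ ^ 2 = 1 := by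
    rw [← h]
    exact Fintype.sum_equiv ((Units.mulLeft hunit.unit).trans (Equiv.addRight v)) _ _ fun j => rfl
  have h2 : ∑ j, ‖ψ j‖ ^ 2 = ‖ζ‖ ^ 2 * ∑ j, ‖ψ (u * j + v)‖ ^ 2 := by
    rw [mul_sum]
    refine sum_congr rfl fun j _ => ?_
    rw [← norm_star, hs, norm_mul, norm_mul, norm_char, one_mul, mul_pow]
  rw [h1, h, mul_one] at h2
  exact (pow_eq_one_iff_of_nonneg (norm_nonneg _) two_ne_zero).1 h2.symm

theorem anti {ψ : ZMod D → ℂ} (h : Fid ψ) {u : ZMod D} (hu : u * u = 1) {ζ : ℂ}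
    {c v : ZMod D} (hs : ∀ j, star (ψ j) = ζ * (ZMod.stdAddChar (c * j) * ψ (u * j + v)))
    {a b : ZMod D} (ha : u * a = -a) (hb : u * b = b) (hab : (a, b) ≠ (0, 0)) :
    a * b = -(c * a) + b * v := by
  have hunit : IsUnit u := IsUnit.of_mul_eq_one u hu
  have hζ := norm_zeta' h.1 hu hs
  have hζ2 : star ζ * ζ = 1 := by
    rw [show star ζ = (starRingEnd ℂ) ζ from rfl, Complex.conj_mul', hζ]; norm_num
  have key : star (ov ψ a b) = ZMod.stdAddChar (-(c * a) + b * v) * ov ψ (-a) (-b) := by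
    unfold ov
    rw [star_sum, mul_sum]
    refine Fintype.sum_equiv ((Units.mulLeft hunit.unit).trans (Equiv.addRight v)) _ _ fun j => ?_
    have e1 : ((Units.mulLeft hunit.unit).trans (Equiv.addRight v)) j = u * j + v := rfl
    rw [e1]
    have e2 : ψ j = star ζ * (ZMod.stdAddChar (-(c * j)) * star (ψ (u * j + v))) := by
      have := congrArg star (hs j)
      rw [star_star, star_mul', star_mul', conj_char] at this
      exact this
    have e3 : star (ψ (j + a)) = ζ * (ZMod.stdAddChar (c * (j + a)) * ψ (u * j + v + -a)) := by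
      rw [hs, show u * (j + a) + v = u * j + v + -a by linear_combination ha]
    rw [e3, e2]
    simp only [star_mul', star_star, conj_char]
    have e4 : (ZMod.stdAddChar (-(c * a) + b * v) : ℂ) * (star (ψ (u * j + v + -a)) *
        (ZMod.stdAddChar (-b * (u * j + v)) * ψ (u * j + v))) =
        ZMod.stdAddChar (-(c * a) + b * v) * ZMod.stdAddChar (-b * (u * j + v)) *
          (star (ψ (u * j + v + -a)) * ψ (u * j + v)) := by ring
    have e5 : star ζ * (ZMod.stdAddChar (-(c * (j + a))) * star (ψ (u * j + v + -a))) *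
        (ZMod.stdAddChar (-(b * j)) * (ζ * (ZMod.stdAddChar (- -(c * j)) * ψ (u * j + v)))) =
        (star ζ * ζ) * (ZMod.stdAddChar (-(c * (j + a))) * ZMod.stdAddChar (-(b * j)) *
          ZMod.stdAddChar (- -(c * j))) * (star (ψ (u * j + v + -a)) * ψ (u * j + v)) := by ring
    rw [e4, e5, hζ2, one_mul, ← AddChar.map_add_eq_mul, ← AddChar.map_add_eq_mul,
      ← AddChar.map_add_eq_mul]
    congr 2
    linear_combination j * hb
  rw [conj_ov] at key
  have hne : ov ψ (-a) (-b) ≠ 0 := by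
    intro h0
    have h1 := h.2 (-a) (-b) (by
      intro h2
      rw [Prod.mk.injEq, neg_eq_zero, neg_eq_zero] at h2
      exact hab (by rw [h2.1, h2.2]))
    rw [h0, norm_zero] at h1
    have : (0 : ℝ) < 1 / (D + 1) := by positivity
    rw [← h1] at this
    norm_num at this
  exact ZMod.injective_stdAddChar (mul_right_cancel₀ hne key)

/-- the obstruction -/
theorem anti_none {ψ : ZMod D → ℂ} (h : Fid ψ) {u : ZMod D} (hu : u * u = 1) {a b : ZMod D}
    (ha : u * a = -a) (hb : u * b = b) (hab : a * b ≠ 0) (ζ : ℂ) (c v : ZMod D) :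
    ¬ ∀ j, star (ψ j) = ζ * (ZMod.stdAddChar (c * j) * ψ (u * j + v)) := by
  intro hs
  have ha0 : a ≠ 0 := by rintro rfl; simp at hab
  have hb0 : b ≠ 0 := by rintro rfl; simp at hab
  have h1 := anti h hu hs ha hb (by simp [ha0])
  have h2 := anti h hu hs ha (b := 0) (by simp) (by simp [ha0])
  have h3 := anti h hu hs (a := 0) (by simp) hb (by simp [hb0])
  apply hab
  linear_combination h1 - h2 - h3

theorem exists_ab {k o : ℕ} (hk : 1 ≤ k) (ho : Odd o) (hD : D = 2 ^ k * o) {u : ZMod D}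
    (hu : u * u = 1) (h : (2 : ZMod D) ^ k ∣ u - 1 ∨ (2 : ZMod D) ^ k ∣ u + 1) :
    ∃ a b : ZMod D, u * a = -a ∧ u * b = b ∧ a * b ≠ 0 := by
  obtain ⟨t, ht⟩ : ∃ t : ZMod D, t = ((2 ^ (k - 1) * o : ℕ) : ZMod D) := ⟨_, rfl⟩
  have hpow : 2 ^ k = 2 * 2 ^ (k - 1) := by rw [← pow_succ']; congr 1; omega
  have ho0 : 0 < o := ho.pos
  have hD2 : D = 2 * (2 ^ (k - 1) * o) := by rw [hD, hpow]; ring
  have h2t : 2 * t = 0 := by
    have : ((2 * (2 ^ (k - 1) * o) : ℕ) : ZMod D) = 0 := by rw [← hD2]; exact ZMod.natCast_self D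
    rw [ht]; push_cast at this ⊢; exact this
  have ht0 : t ≠ 0 := by
    rw [ht, Ne, ZMod.natCast_eq_zero_iff]
    intro h1
    have h2 : 0 < 2 ^ (k - 1) * o := by positivity
    have := Nat.le_of_dvd h2 h1
    omega
  have hodd : ∀ x : ℕ, Odd x → (x : ZMod D) * t = t := by
    rintro x ⟨q, rfl⟩
    push_cast
    linear_combination (q : ZMod D) * h2t
  have huo : Odd u.val := by
    have h1 : ((u.val * u.val : ℕ) : ZMod D) = ((1 : ℕ) : ZMod D) := by
      push_cast
      rw [ZMod.natCast_val, ZMod.cast_id', id, hu]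
    have h2 := (ZMod.natCast_eq_natCast_iff _ _ _).1 h1
    have h3 : u.val * u.val ≡ 1 [MOD 2] := h2.of_dvd ⟨2 ^ (k - 1) * o, hD2⟩
    have h4 : Odd (u.val * u.val) := by
      rw [Nat.odd_iff]; exact h3
    exact (Nat.odd_mul.1 h4).1
  have hut : u * t = t := by
    have := hodd _ huo
    rwa [ZMod.natCast_val, ZMod.cast_id', id] at this
  have hot : (o : ZMod D) * t = t := hodd o ho
  have hDo : (2 : ZMod D) ^ k * o = 0 := by
    have : ((2 ^ k * o : ℕ) : ZMod D) = 0 := by rw [← hD]; exact ZMod.natCast_self D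
    push_cast at this; exact this
  rcases h with ⟨x, hx⟩ | ⟨x, hx⟩
  · refine ⟨t, o, ?_, ?_, ?_⟩
    · linear_combination hut + h2t
    · linear_combination (o : ZMod D) * hx + x * hDo
    · rw [mul_comm, hot]; exact ht0
  · refine ⟨o, t, ?_, hut, ?_⟩
    · linear_combination (o : ZMod D) * hx + x * hDo
    · rw [hot]; exact ht0

/-! ### the overlaps with half of the dimension -/

/-- autocorrelations -/
theorem autocorr {ψ : ZMod D → ℂ} (h : Fid ψ) {a : ZMod D} (ha : a ≠ 0) (l : ZMod D) :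
    ∑ j, (star (ψ (j + a)) * ψ j) * star (star (ψ (j + l + a)) * ψ (j + l)) =
      if l = 0 then 1 / ((D : ℂ) + 1) else 0 := by
  obtain ⟨w, hw⟩ : ∃ w : ZMod D → ℂ, w = fun j => star (ψ (j + a)) * ψ j := ⟨_, rfl⟩
  have hov : ∀ b, ov ψ a b = ∑ j, w j * ZMod.stdAddChar (b * j) := by
    intro b; unfold ov; rw [hw]; refine sum_congr rfl fun j _ => ?_; ring
  have h1 : ∀ b, ov ψ a b * star (ov ψ a b) = 1 / ((D : ℂ) + 1) := by
    intro b
    have h2 := h.2 a b (by simp [ha])
    rw [show star (ov ψ a b) = (starRingEnd ℂ) (ov ψ a b) from rfl, Complex.mul_conj']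
    have : ((‖ov ψ a b‖ ^ 2 : ℝ) : ℂ) = ((1 / ((D : ℝ) + 1) : ℝ) : ℂ) := by rw [h2]
    push_cast at this
    rw [this]
  have h2 : ∑ b, ZMod.stdAddChar (b * l) * (ov ψ a b * star (ov ψ a b)) =
      D * ∑ j, w j * star (w (j + l)) := by
    have e1 : ∀ b, ZMod.stdAddChar (b * l) * (ov ψ a b * star (ov ψ a b)) =
        ∑ j, ∑ i, (w j * star (w i)) * ZMod.stdAddChar (b * (l + j - i)) := by
      intro b
      rw [hov, star_sum, sum_mul_sum, mul_sum]
      refine sum_congr rfl fun j _ => ?_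
      rw [mul_sum]
      refine sum_congr rfl fun i _ => ?_
      rw [star_mul', conj_char]
      have : (ZMod.stdAddChar (b * (l + j - i)) : ℂ) =
          ZMod.stdAddChar (b * l) * ZMod.stdAddChar (b * j) * ZMod.stdAddChar (-(b * i)) := by
        rw [← AddChar.map_add_eq_mul, ← AddChar.map_add_eq_mul]; congr 1; ring
      rw [this]; ring
    rw [sum_congr rfl fun b _ => e1 b, sum_comm, mul_sum]
    refine sum_congr rfl fun j _ => ?_
    rw [sum_comm]
    have e2 : ∀ i, ∑ b, (w j * star (w i)) * ZMod.stdAddChar (b * (l + j - i)) =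
        if i = j + l then D * (w j * star (w i)) else 0 := by
      intro i
      rw [← mul_sum, AddChar.sum_mulShift _ (ZMod.isPrimitive_stdAddChar D)]
      by_cases hi : i = j + l
      · rw [if_pos (by rw [hi]; ring), if_pos hi, ZMod.card]; ring
      · rw [if_neg (by intro h3; exact hi (by linear_combination -h3)), if_neg hi]; simp
    rw [sum_congr rfl fun i _ => e2 i, sum_ite_eq' univ (j + l)]
    simp
  rw [sum_congr rfl fun b _ => by rw [h1 b], ← sum_mul,
    AddChar.sum_mulShift _ (ZMod.isPrimitive_stdAddChar D)] at h2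
  have hD0 : (D : ℂ) ≠ 0 := by exact_mod_cast NeZero.ne D
  have h3 : ∑ j, (star (ψ (j + a)) * ψ j) * star (star (ψ (j + l + a)) * ψ (j + l)) =
      ∑ j, w j * star (w (j + l)) := by rw [hw]
  rw [h3]
  apply mul_left_cancel₀ hD0
  rw [← h2]
  split_ifs with h4
  · rw [ZMod.card]
  · simp

/-- the overlaps with half of the dimension: real and imaginary parts -/
theorem half_dim {ψ : ZMod D → ℂ} (h : Fid ψ) {n : ZMod D} (hn : n ≠ 0) (hnn : n + n = 0)
    (l : ZMod D) :
    (∑ j, (star (ψ (j + n)) * ψ j).re * (star (ψ (j + l + n)) * ψ (j + l)).re =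
      ((if l = 0 then 1 else 0) + (if l = n then 1 else 0)) / (2 * ((D : ℝ) + 1))) ∧
    (∑ j, (star (ψ (j + n)) * ψ j).im * (star (ψ (j + l + n)) * ψ (j + l)).im =
      ((if l = 0 then 1 else 0) - (if l = n then 1 else 0)) / (2 * ((D : ℝ) + 1))) ∧
    (∑ j, (star (ψ (j + n)) * ψ j).re * (star (ψ (j + l + n)) * ψ (j + l)).im = 0) := by
  obtain ⟨w, hw⟩ : ∃ w : ZMod D → ℂ, w = fun j => star (ψ (j + n)) * ψ j := ⟨_, rfl⟩
  have hwn : ∀ j, w (j + n) = star (w j) := by
    intro j
    rw [hw]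
    simp only
    rw [star_mul', star_star, show j + n + n = j by linear_combination hnn, mul_comm]
  have hwj : ∀ j, star (ψ (j + n)) * ψ j = w j := fun j => by rw [hw]
  have h1 := autocorr h hn l
  have h2 := autocorr h hn (l + n)
  simp only [hwj] at h1 h2 ⊢
  have h2' : ∑ j, w j * w (j + l) = if l = n then 1 / ((D : ℂ) + 1) else 0 := by
    have e1 : ∀ j, w j * star (w (j + (l + n))) = w j * w (j + l) := by
      intro j
      rw [← add_assoc, hwn, star_star]
    rw [sum_congr rfl fun j _ => e1 j] at h2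
    rw [h2]
    have : l + n = 0 ↔ l = n := by
      constructor
      · intro h3; linear_combination h3 - hnn
      · rintro rfl; exact hnn
    simp only [this]
  have r1 := congrArg Complex.re h1
  have i1 := congrArg Complex.im h1
  have r2 := congrArg Complex.re h2'
  have i2 := congrArg Complex.im h2'
  rw [re_sum] at r1 r2
  rw [im_sum] at i1 i2
  have c1 : ∀ P : Prop, ∀ [Decidable P], (if P then 1 / ((D : ℂ) + 1) else 0).re =
      (if P then (1 : ℝ) else 0) / ((D : ℝ) + 1) := by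
    intro P _
    split_ifs
    · have : (1 / ((D : ℂ) + 1)) = ((1 / ((D : ℝ) + 1) : ℝ) : ℂ) := by push_cast; rfl
      rw [this, ofReal_re]
    · simp
  have c2 : ∀ P : Prop, ∀ [Decidable P], (if P then 1 / ((D : ℂ) + 1) else 0).im = 0 := by
    intro P _
    split_ifs
    · have : (1 / ((D : ℂ) + 1)) = ((1 / ((D : ℝ) + 1) : ℝ) : ℂ) := by push_cast; rfl
      rw [this, ofReal_im]
    · simp
  rw [c1] at r1 r2
  rw [c2] at i1 i2
  simp only [mul_re, mul_im, show ∀ z : ℂ, (star z).re = z.re from fun z => rfl,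
    show ∀ z : ℂ, (star z).im = -z.im from fun z => rfl] at r1 r2 i1 i2
  have a1 : ∑ j, (w j).re * (w (j + l)).re + ∑ j, (w j).im * (w (j + l)).im =
      (if l = 0 then (1 : ℝ) else 0) / ((D : ℝ) + 1) := by
    rw [← r1, ← sum_add_distrib]
    exact sum_congr rfl fun j _ => by ring
  have a2 : ∑ j, (w j).re * (w (j + l)).re - ∑ j, (w j).im * (w (j + l)).im =
      (if l = n then (1 : ℝ) else 0) / ((D : ℝ) + 1) := by
    rw [← r2, ← sum_sub_distrib]
  have a3 : ∑ j, (w j).im * (w (j + l)).re - ∑ j, (w j).re * (w (j + l)).im = 0 := by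
    rw [← i1, ← sum_sub_distrib]
    exact sum_congr rfl fun j _ => by ring
  have a4 : ∑ j, (w j).re * (w (j + l)).im + ∑ j, (w j).im * (w (j + l)).re = 0 := by
    rw [← i2, ← sum_add_distrib]
  have hD1 : ((D : ℝ) + 1) ≠ 0 := by positivity
  refine ⟨?_, ?_, by linarith⟩
  · field_simp at a1 a2 ⊢
    linarith
  · field_simp at a1 a2 ⊢
    linarith

end Pool.Agent.X181.SIC
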