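import Mathlib

/-!
# Weyl-Heisenberg covariant SIC states: symmetries `ψ (u j) = ζ ψ j`
-/

set_option autoImplicit false

namespace Pool.Agent.X181.SIC

open Finset Complex

variable {D : ℕ} [NeZero D]

/-- `⟨ψ, X^a Z^b ψ⟩`, where `(X^a Z^b ψ)(j + a) = ω^(b j) ψ j`, `ω = exp (2 π i / D)`
(`ZMod.stdAddChar x = exp (2 π i x / D)`) -/
noncomputable def ov (ψ : ZMod D → ℂ) (a b : ZMod D) : ℂ :=
  ∑ j, star (ψ (j + a)) * (ZMod.stdAddChar (b * j) * ψ j)

/-- unit vectors with all the overlaps of modulus `1 / √(D+1)` -/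
def Fid (ψ : ZMod D → ℂ) : Prop :=
  ∑ j, ‖ψ j‖ ^ 2 = 1 ∧ ∀ a b : ZMod D, (a, b) ≠ (0, 0) → ‖ov ψ a b‖ ^ 2 = 1 / (D + 1)

/-- the overlap with a phase -/
noncomputable def RR (ψ : ZMod D → ℂ) (u i k : ZMod D) : ℂ :=
  ZMod.stdAddChar (-((u - 1) * k * i)) * ov ψ ((u - 1) * i) ((u - 1) * k)

/-- the number of fixed points -/
def kap (u : ZMod D) : ℕ := (univ.filter fun i : ZMod D => (u - 1) * i = 0).card

theorem ov_zero {ψ : ZMod D → ℂ} (h : ∑ j, ‖ψ j‖ ^ 2 = 1) : ov ψ 0 0 = 1 := by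
  unfold ov
  have : ∀ j, star (ψ (j + 0)) * (ZMod.stdAddChar (0 * j : ZMod D) * ψ j) = ((‖ψ j‖ ^ 2 : ℝ) : ℂ) := by
    intro j
    rw [add_zero, zero_mul, AddChar.map_zero_eq_one, one_mul]
    rw [show star (ψ j) = (starRingEnd ℂ) (ψ j) from rfl, Complex.conj_mul']
    push_cast; rfl
  rw [sum_congr rfl fun j _ => this j, ← ofReal_sum, h, ofReal_one]

theorem norm_char (x : ZMod D) : ‖(ZMod.stdAddChar x : ℂ)‖ = 1 := by
  exact AddChar.norm_apply _ _

theorem conj_char (x : ZMod D) : star (ZMod.stdAddChar x : ℂ) = ZMod.stdAddChar (-x) := by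
  rw [AddChar.map_neg_eq_conj]; rfl

/-- `conj χ(a,b) = ω^(ab) χ(-a,-b)` -/
theorem conj_ov (ψ : ZMod D → ℂ) (a b : ZMod D) :
    star (ov ψ a b) = ZMod.stdAddChar (a * b) * ov ψ (-a) (-b) := by
  unfold ov
  rw [star_sum, mul_sum]
  refine Fintype.sum_equiv (Equiv.addRight a) _ _ fun j => ?_
  simp only [star_mul', star_star, Equiv.coe_addRight]
  rw [conj_char, show j + a + -a = j by ring]
  have : (ZMod.stdAddChar (a * b) : ℂ) * (star (ψ j) * (ZMod.stdAddChar (-b * (j + a)) * ψ (j + a))) =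
      (ZMod.stdAddChar (a * b) * ZMod.stdAddChar (-b * (j + a))) * (star (ψ j) * ψ (j + a)) := by
    ring
  rw [this, ← AddChar.map_add_eq_mul, show a * b + -b * (j + a) = -(b * j) by ring]
  ring

/-- the sum of all the overlaps -/
theorem sum_RR {ψ : ZMod D → ℂ} (u : ZMod D) :
    ∑ i, ∑ k, RR ψ u i k = D * kap u * ∑ j, star (ψ (u * j)) * ψ j := by
  have h1 : ∀ i : ZMod D, ∑ k, RR ψ u i k =
      ∑ j, if (u - 1) * (j - i) = 0 then D * (star (ψ (u * j)) * ψ j) else 0 := by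
    intro i
    unfold RR ov
    simp only [mul_sum]
    rw [sum_comm]
    refine sum_congr rfl fun j _ => ?_
    have h2 : ∀ k : ZMod D, (ZMod.stdAddChar (-((u - 1) * k * i)) : ℂ) *
        (star (ψ (j + (u - 1) * i)) * (ZMod.stdAddChar ((u - 1) * k * j) * ψ j)) =
        (star (ψ (j + (u - 1) * i)) * ψ j) * ZMod.stdAddChar (k * ((u - 1) * (j - i))) := by
      intro k
      have : (ZMod.stdAddChar (k * ((u - 1) * (j - i))) : ℂ) =
          ZMod.stdAddChar (-((u - 1) * k * i)) * ZMod.stdAddChar ((u - 1) * k * j) := by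
        rw [← AddChar.map_add_eq_mul]; congr 1; ring
      rw [this]; ring
    rw [sum_congr rfl fun k _ => h2 k, ← mul_sum,
      AddChar.sum_mulShift _ (ZMod.isPrimitive_stdAddChar D)]
    split_ifs with h
    · have h3 : j + (u - 1) * i = u * j := by linear_combination -h
      rw [h3, ZMod.card]; ring
    · simp
  rw [sum_congr rfl fun i _ => h1 i, sum_comm]
  rw [mul_sum]
  refine sum_congr rfl fun j _ => ?_
  rw [← sum_filter, sum_const]
  have h4 : (univ.filter fun i : ZMod D => (u - 1) * (j - i) = 0).card = kap u := by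
    unfold kap
    refine card_bij (fun i _ => j - i) ?_ ?_ ?_
    · intro i hi; simpa using hi
    · intro i _ i' _ h; simpa using h
    · intro i hi; exact ⟨j - i, by simpa using hi, by simp⟩
  rw [h4, nsmul_eq_mul]; ring

theorem kap_pos (u : ZMod D) : 0 < kap u := card_pos.2 ⟨0, by simp⟩

theorem kap_lt {u : ZMod D} (hu : u ≠ 1) : kap u < D := by
  have : kap u < (univ : Finset (ZMod D)).card := by
    apply card_lt_card
    rw [Finset.ssubset_univ_iff]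
    intro h
    have h1 : (1 : ZMod D) ∈ (univ.filter fun i : ZMod D => (u - 1) * i = 0) := by
      rw [h]; exact mem_univ _
    simp only [mem_filter, mem_univ, true_and, mul_one] at h1
    exact hu (sub_eq_zero.1 h1)
  rwa [card_univ, ZMod.card] at this

/-- the pairs with zero displacement -/
theorem card_pairs (u : ZMod D) :
    (univ.filter fun p : ZMod D × ZMod D => (u - 1) * p.1 = 0 ∧ (u - 1) * p.2 = 0).card =
      kap u ^ 2 := by
  rw [sq]
  unfold kap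
  rw [← card_product]
  congr 1
  ext p
  simp

/-- the pairs with nonzero displacement -/
def NP (u : ZMod D) : Finset (ZMod D × ZMod D) :=
  univ.filter fun p => ¬ ((u - 1) * p.1 = 0 ∧ (u - 1) * p.2 = 0)

theorem card_NP (u : ZMod D) : (NP u).card + kap u ^ 2 = D ^ 2 := by
  have h := Finset.card_filter_add_card_filter_not (s := (univ : Finset (ZMod D × ZMod D)))
    (fun p => (u - 1) * p.1 = 0 ∧ (u - 1) * p.2 = 0)
  rw [card_pairs] at h
  have h2 : (univ : Finset (ZMod D × ZMod D)).card = D ^ 2 := by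
    rw [card_univ, Fintype.card_prod, ZMod.card, sq]
  rw [h2] at h
  unfold NP
  omega

theorem sum_split {ψ : ZMod D → ℂ} (h : ∑ j, ‖ψ j‖ ^ 2 = 1) (u : ZMod D) :
    ∑ i, ∑ k, RR ψ u i k = (kap u : ℂ) ^ 2 + ∑ p ∈ NP u, RR ψ u p.1 p.2 := by
  have h1 : ∑ i, ∑ k, RR ψ u i k = ∑ p : ZMod D × ZMod D, RR ψ u p.1 p.2 :=
    (Fintype.sum_prod_type' _).symm
  rw [h1, ← Finset.sum_filter_add_sum_filter_not univ
    (fun p : ZMod D × ZMod D => (u - 1) * p.1 = 0 ∧ (u - 1) * p.2 = 0)]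
  congr 1
  rw [sum_congr rfl (g := fun _ => (1 : ℂ)), sum_const, card_pairs, nsmul_eq_mul]
  · push_cast; ring
  · intro p hp
    simp only [mem_filter, mem_univ, true_and] at hp
    unfold RR
    rw [hp.1, hp.2, ov_zero h, zero_mul, neg_zero, AddChar.map_zero_eq_one, one_mul]

theorem norm_RR {ψ : ZMod D → ℂ} (h : Fid ψ) (u : ZMod D) {p : ZMod D × ZMod D} (hp : p ∈ NP u) :
    ‖RR ψ u p.1 p.2‖ = 1 / √(D + 1) := by
  unfold NP at hp
  simp only [mem_filter, mem_univ, true_and] at hp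
  unfold RR
  rw [norm_mul, norm_char, one_mul]
  have h1 := h.2 ((u - 1) * p.1) ((u - 1) * p.2) (by
    intro h2
    rw [Prod.mk.injEq] at h2
    exact hp h2)
  have h3 := Real.sqrt_sq (norm_nonneg (ov ψ ((u - 1) * p.1) ((u - 1) * p.2)))
  rw [← h3, h1, Real.sqrt_div zero_le_one, Real.sqrt_one]

/-- symmetric vectors: `ψ (u j) = ζ ψ j` -/
theorem norm_zeta {ψ : ZMod D → ℂ} (h : ∑ j, ‖ψ j‖ ^ 2 = 1) {u : ZMod D} (hu : IsUnit u) {ζ : ℂ}
    (hs : ∀ j, ψ (u * j) = ζ * ψ j) : ‖ζ‖ = 1 := by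
  obtain ⟨v, rfl⟩ := hu
  have h1 : ∑ j, ‖ψ (v * j)‖ ^ 2 = 1 := by
    rw [← h]
    exact Fintype.sum_equiv (Units.mulLeft v) _ _ fun j => rfl
  have h2 : ∑ j, ‖ψ (v * j)‖ ^ 2 = ‖ζ‖ ^ 2 * ∑ j, ‖ψ j‖ ^ 2 := by
    rw [mul_sum]
    refine sum_congr rfl fun j _ => ?_
    rw [hs, norm_mul, mul_pow]
  rw [h1, h, mul_one] at h2
  exact (pow_eq_one_iff_of_nonneg (norm_nonneg _) two_ne_zero).1 h2.symm

/-- the sum of the overlaps of a symmetric vector -/
theorem sum_sym {ψ : ZMod D → ℂ} (h : ∑ j, ‖ψ j‖ ^ 2 = 1) {u : ZMod D} {ζ : ℂ}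
    (hs : ∀ j, ψ (u * j) = ζ * ψ j) : ∑ i, ∑ k, RR ψ u i k = D * kap u * star ζ := by
  rw [sum_RR]
  congr 1
  have : ∀ j, star (ψ (u * j)) * ψ j = star ζ * ((‖ψ j‖ ^ 2 : ℝ) : ℂ) := by
    intro j
    rw [hs, star_mul', mul_assoc, show star (ψ j) = (starRingEnd ℂ) (ψ j) from rfl,
      Complex.conj_mul']
    push_cast; rfl
  rw [sum_congr rfl fun j _ => this j, ← mul_sum, ← ofReal_sum, h, ofReal_one, mul_one]

theorem quad {κ D m : ℝ} (hm : 1 < m) (hD : D = m ^ 2 - 1) (hκ : κ < D)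
    (h : D * κ ≤ κ ^ 2 + (D ^ 2 - κ ^ 2) / m) : κ ≤ m + 1 := by
  by_contra hlt
  push Not at hlt
  have h1 : m * (D * κ) ≤ m * κ ^ 2 + (D ^ 2 - κ ^ 2) := by
    have := mul_le_mul_of_nonneg_left h (by linarith : 0 ≤ m)
    have h2 : m * (κ ^ 2 + (D ^ 2 - κ ^ 2) / m) = m * κ ^ 2 + (D ^ 2 - κ ^ 2) := by
      field_simp
    rwa [h2] at this
  subst hD
  have h3 : 0 ≤ (m - 1) * ((κ - (m + 1)) * (κ - (m ^ 2 - 1))) := by
    have : (m - 1) * ((κ - (m + 1)) * (κ - (m ^ 2 - 1))) = m * κ ^ 2 + ((m ^ 2 - 1) ^ 2 - κ ^ 2) -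
      m * ((m ^ 2 - 1) * κ) := by ring
    rw [this]; linarith
  have h4 : (κ - (m + 1)) * (κ - (m ^ 2 - 1)) < 0 :=
    mul_neg_of_pos_of_neg (by linarith) (by linarith)
  nlinarith [mul_neg_of_pos_of_neg (by linarith : 0 < m - 1) h4]

/-- **few fixed points** -/
theorem few_fixed {ψ : ZMod D → ℂ} (h : Fid ψ) {u : ZMod D} (hu : IsUnit u) (hu1 : u ≠ 1) {ζ : ℂ}
    (hs : ∀ j, ψ (u * j) = ζ * ψ j) : (kap u : ℝ) ≤ √(D + 1) + 1 := by
  have hD0 : (0 : ℝ) < D := by exact_mod_cast Nat.pos_of_ne_zero (NeZero.ne D)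
  have hm : 1 < √((D : ℝ) + 1) := by
    rw [Real.lt_sqrt (by norm_num)]; linarith
  refine quad hm (D := D) (by rw [Real.sq_sqrt (by positivity)]; ring)
    (by exact_mod_cast kap_lt hu1) ?_
  have h1 : ‖∑ i, ∑ k, RR ψ u i k‖ = D * kap u := by
    rw [sum_sym h.1 hs, norm_mul, norm_star, norm_zeta h.1 hu hs, mul_one, norm_mul,
      Complex.norm_natCast, Complex.norm_natCast]
  rw [← h1, sum_split h.1]
  refine (norm_add_le _ _).trans ?_
  refine add_le_add ?_ ?_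
  · rw [norm_pow, Complex.norm_natCast]
  · refine (norm_sum_le _ _).trans ?_
    rw [sum_congr rfl fun p hp => norm_RR h u hp, sum_const, nsmul_eq_mul]
    have h2 : ((NP u).card : ℝ) = (D : ℝ) ^ 2 - (kap u : ℝ) ^ 2 := by
      have := card_NP u
      have h3 : ((NP u).card : ℝ) + (kap u : ℝ) ^ 2 = (D : ℝ) ^ 2 := by exact_mod_cast this
      linarith
    rw [h2]
    apply le_of_eq; ring

/-- for an involution the overlaps are real -/
theorem RR_real {ψ : ZMod D → ℂ} (h : ∑ j, ‖ψ j‖ ^ 2 = 1) {u : ZMod D} (hu : u * u = 1) {ζ : ℂ}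
    (hs : ∀ j, ψ (u * j) = ζ * ψ j) (i k : ZMod D) : star (RR ψ u i k) = RR ψ u i k := by
  have hunit : IsUnit u := IsUnit.of_mul_eq_one u hu
  have hζ := norm_zeta h hunit hs
  have hζ2 : star ζ * ζ = 1 := by
    rw [show star ζ = (starRingEnd ℂ) ζ from rfl, Complex.conj_mul', hζ]; norm_num
  -- invariance of the overlaps
  have hinv : ∀ a b : ZMod D, ov ψ (u * a) (u * b) = ov ψ a b := by
    intro a b
    unfold ov
    refine (Fintype.sum_equiv (Units.mulLeft hunit.unit) _ _ fun j => ?_).symm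
    have e1 : (Units.mulLeft hunit.unit) j = u * j := rfl
    rw [e1, ← mul_add, hs, hs, show u * b * (u * j) = b * j by linear_combination b * j * hu,
      star_mul']
    linear_combination (-(star (ψ (j + a)) * (ZMod.stdAddChar (b * j) * ψ j))) * hζ2
  unfold RR
  rw [star_mul', conj_char, conj_ov, neg_neg]
  have e2 : ov ψ (-((u - 1) * i)) (-((u - 1) * k)) = ov ψ ((u - 1) * i) ((u - 1) * k) := by
    rw [← hinv ((u - 1) * i) ((u - 1) * k)]
    congr 1 <;> [linear_combination (-i) * hu; linear_combination (-k) * hu]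
  rw [e2, ← mul_assoc, ← AddChar.map_add_eq_mul]
  congr 2
  linear_combination (i * k) * hu

/-- the sign of a real number of modulus `1/M` -/
theorem sign_of {z : ℂ} {M : ℝ} (hr : star z = z) (hz : ‖z‖ = 1 / M) :
    ∃ s : ℤ, (s = 1 ∨ s = -1) ∧ z = s / M := by
  obtain ⟨x, rfl⟩ : ∃ x : ℝ, z = x := ⟨z.re, (Complex.conj_eq_iff_re.1 hr).symm⟩
  rw [Complex.norm_real, Real.norm_eq_abs] at hz
  rcases abs_eq_abs.1 (show |x| = |1 / M| by
    rw [hz, abs_of_nonneg]; rw [← hz]; exact abs_nonneg x) with h1 | h1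
  · exact ⟨1, Or.inl rfl, by rw [h1]; push_cast; ring⟩
  · exact ⟨-1, Or.inr rfl, by rw [h1]; push_cast; ring⟩

/-- **The integrality theorem.** -/
theorem involution {ψ : ZMod D → ℂ} (h : Fid ψ) {u : ZMod D} (hu : u * u = 1) (hu1 : u ≠ 1) {ζ : ℂ}
    (hs : ∀ j, ψ (u * j) = ζ * ψ j) : ∃ (ε : ℤ) (m : ℕ) (s : ZMod D × ZMod D → ℤ),
      (ε = 1 ∨ ε = -1) ∧ ζ = ε ∧ m ^ 2 = D + 1 ∧ (∀ p ∈ NP u, s p = 1 ∨ s p = -1) ∧
      (∀ p ∈ NP u, RR ψ u p.1 p.2 = s p / m) ∧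
      ∑ p ∈ NP u, s p = m * (kap u * (ε * D - kap u)) := by
  classical
  have hunit : IsUnit u := IsUnit.of_mul_eq_one u hu
  have hζ := norm_zeta h.1 hunit hs
  have hsplit := sum_split h.1 u
  rw [sum_sym h.1 hs] at hsplit
  have hreal : ∀ i k, star (RR ψ u i k) = RR ψ u i k := RR_real h.1 hu hs
  have hD0 : 0 < D := Nat.pos_of_ne_zero (NeZero.ne D)
  have hκ := kap_pos u
  have hκ1 := kap_lt hu1
  -- `ζ` is real
  have hζr : star ζ = ζ := by
    have h1 := congrArg star hsplit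
    rw [star_add, star_sum, sum_congr rfl fun p _ => hreal p.1 p.2, star_pow, star_mul', star_mul',
      star_star, star_natCast, star_natCast, ← hsplit] at h1
    have hne : (D : ℂ) * kap u ≠ 0 := by
      exact_mod_cast (Nat.mul_pos hD0 hκ).ne'
    exact (mul_left_cancel₀ hne h1).symm
  obtain ⟨ε, hε, hζε⟩ := sign_of hζr (M := 1) (by rw [hζ]; norm_num)
  rw [ofReal_one, div_one] at hζε
  have hsig : ∀ p : ZMod D × ZMod D, p ∈ NP u → ∃ s : ℤ, (s = 1 ∨ s = -1) ∧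
      RR ψ u p.1 p.2 = s / (√((D : ℝ) + 1) : ℝ) := fun p hp =>
    sign_of (hreal p.1 p.2) (norm_RR h u hp)
  choose! s hs1 hs2 using hsig
  have hsum : ∑ p ∈ NP u, RR ψ u p.1 p.2 = ((∑ p ∈ NP u, s p : ℤ) : ℂ) / (√((D : ℝ) + 1) : ℝ) := by
    rw [sum_congr rfl hs2, ← sum_div]
    push_cast; rfl
  rw [hsum, hζr, hζε] at hsplit
  obtain ⟨n, hn⟩ : ∃ n, n = ∑ p ∈ NP u, s p := ⟨_, rfl⟩
  rw [← hn] at hsplit
  obtain ⟨z, hz⟩ : ∃ z : ℤ, z = kap u * (ε * D - kap u) := ⟨_, rfl⟩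
  have hM0 : (0 : ℝ) < √((D : ℝ) + 1) := Real.sqrt_pos.2 (by positivity)
  have hzn : √((D : ℝ) + 1) * z = n := by
    have h1 : ((√((D : ℝ) + 1) * z : ℝ) : ℂ) = ((n : ℝ) : ℂ) := by
      have hM' : ((√((D : ℝ) + 1) : ℝ) : ℂ) ≠ 0 := by exact_mod_cast hM0.ne'
      have h2 : ((z : ℝ) : ℂ) = n / (√((D : ℝ) + 1) : ℝ) := by
        rw [hz]; push_cast
        linear_combination hsplit
      rw [ofReal_mul, h2]
      field_simp
      push_cast; rfl
    exact_mod_cast h1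
  have hz0 : z ≠ 0 := by
    rw [hz]
    apply mul_ne_zero
    · exact_mod_cast hκ.ne'
    · rcases hε with rfl | rfl
      · have : (kap u : ℤ) < D := by exact_mod_cast hκ1
        omega
      · have : (0 : ℤ) < kap u := by exact_mod_cast hκ
        omega
  have hsq : ((D : ℤ) + 1) * z ^ 2 = n ^ 2 := by
    have h1 : ((D : ℝ) + 1) * (z : ℝ) ^ 2 = (n : ℝ) ^ 2 := by
      rw [← hzn, mul_pow, Real.sq_sqrt (by positivity)]
    exact_mod_cast h1
  obtain ⟨t, ht⟩ : z ∣ n := (Int.pow_dvd_pow_iff two_ne_zero).1 ⟨(D : ℤ) + 1, by rw [← hsq]; ring⟩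
  have ht2 : t ^ 2 = D + 1 := by
    rw [ht] at hsq
    have h1 : z ^ 2 * (t ^ 2 - (D + 1)) = 0 := by linear_combination -hsq
    rcases mul_eq_zero.1 h1 with h2 | h2
    · exact absurd (pow_eq_zero_iff two_ne_zero |>.1 h2) hz0
    · linarith
  have hm : ((t.natAbs : ℝ)) = √((D : ℝ) + 1) := by
    symm
    rw [Real.sqrt_eq_iff_eq_sq (by positivity) (by positivity)]
    have : ((t.natAbs : ℤ)) ^ 2 = D + 1 := by rw [Int.natAbs_sq, ht2]
    exact_mod_cast this.symm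
  refine ⟨ε, t.natAbs, s, hε, hζε, ?_, hs1, ?_, ?_⟩
  · have : ((t.natAbs : ℤ)) ^ 2 = D + 1 := by rw [Int.natAbs_sq, ht2]
    exact_mod_cast this
  · intro p hp
    rw [hs2 p hp, ← hm]
    push_cast; rfl
  · have h1 : ((t.natAbs : ℝ)) * z = n := by rw [hm, hzn]
    have h2 : ((t.natAbs : ℤ)) * z = n := by
      have h3 : (((t.natAbs : ℤ) * z : ℤ) : ℝ) = (n : ℝ) := by
        rw [Int.cast_mul, Int.cast_natCast]; exact h1
      exact Int.cast_injective h3
    rw [← hn, ← h2, hz]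

end Pool.Agent.X181.SIC
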