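import Pool.Agent.X181.SIC.Basic

set_option autoImplicit false

namespace Pool.Agent.X181.SIC

open Finset Complex

variable {D : ℕ} [NeZero D]

theorem abs_sum_le {α : Type} (S : Finset α) (s : α → ℤ) (hs : ∀ p ∈ S, s p = 1 ∨ s p = -1) :
    |∑ p ∈ S, s p| ≤ S.card := by
  refine (abs_sum_le_sum_abs _ _).trans ?_
  rw [sum_congr rfl (g := fun _ => (1 : ℤ)) (fun p hp => by rcases hs p hp with h | h <;> simp [h])]
  simp

theorem all_one {α : Type} (S : Finset α) (s : α → ℤ) (hs : ∀ p ∈ S, s p = 1 ∨ s p = -1)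
    (h : ∑ p ∈ S, s p = S.card) : ∀ p ∈ S, s p = 1 := by
  have h1 : ∑ p ∈ S, (1 - s p) = 0 := by
    rw [sum_sub_distrib, h]; simp
  have h2 := (sum_eq_zero_iff_of_nonneg (fun p hp => by
    rcases hs p hp with h | h <;> simp [h])).1 h1
  intro p hp
  have := h2 p hp
  linarith

/-- all the consequences -/
theorem main {ψ : ZMod D → ℂ} (h : Fid ψ) {u : ZMod D} (hu : u * u = 1) (hu1 : u ≠ 1) {ζ : ℂ}
    (hs : ∀ j, ψ (u * j) = ζ * ψ j) : ∃ m : ℕ, m ^ 2 = D + 1 ∧
      (ζ = 1 ∧ kap u ≤ m + 1 ∨ ζ = -1 ∧ kap u + 1 ≤ m) ∧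
      (∀ p ∈ NP u, RR ψ u p.1 p.2 = 1 / m ∨ RR ψ u p.1 p.2 = -1 / m) ∧
      ∑ p ∈ NP u, RR ψ u p.1 p.2 = kap u * (ζ * D - kap u) ∧
      (ζ = 1 → kap u = m + 1 → ∀ p ∈ NP u, RR ψ u p.1 p.2 = 1 / m) ∧
      (ζ = -1 → kap u + 1 = m → ∀ p ∈ NP u, RR ψ u p.1 p.2 = -1 / m) := by
  obtain ⟨ε, m, s, hε, hζ, hm, hs1, hs2, hsum⟩ := involution h hu hu1 hs
  have hD0 : 0 < D := Nat.pos_of_ne_zero (NeZero.ne D)
  have hκ0 := kap_pos u
  have hκ1 := kap_lt hu1
  have hcard : ((NP u).card : ℤ) = (D : ℤ) ^ 2 - (kap u : ℤ) ^ 2 := by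
    have := card_NP u
    have h2 : ((NP u).card : ℤ) + (kap u : ℤ) ^ 2 = (D : ℤ) ^ 2 := by exact_mod_cast this
    linarith
  have hm' : (m : ℤ) ^ 2 = D + 1 := by exact_mod_cast hm
  have hD' : (D : ℤ) = m ^ 2 - 1 := by linarith
  have hm0 : (0 : ℤ) < m := by
    rcases Nat.eq_zero_or_pos m with h0 | h0
    · rw [h0] at hm; simp at hm
    · exact_mod_cast h0
  have hκ0' : (0 : ℤ) < kap u := by exact_mod_cast hκ0
  have hκ1' : (kap u : ℤ) < D := by exact_mod_cast hκ1
  have habs := abs_sum_le (NP u) s hs1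
  rw [hsum, hcard] at habs
  have habs1 := (abs_le.1 habs).1
  have habs2 := (abs_le.1 habs).2
  have hmC : (m : ℂ) ≠ 0 := by
    have : m ≠ 0 := by rintro rfl; simp at hm0
    exact_mod_cast this
  refine ⟨m, hm, ?_, ?_, ?_, ?_, ?_⟩
  · rcases hε with rfl | rfl
    · left
      refine ⟨by rw [hζ]; simp, ?_⟩
      have h1 : (m : ℤ) * kap u * (D - kap u) ≤ (D + kap u) * (D - kap u) := by
        linear_combination habs2
      have h2 : (m : ℤ) * kap u ≤ D + kap u := le_of_mul_le_mul_right h1 (by linarith)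
      have h3 : ((m : ℤ) - 1) * kap u ≤ (m - 1) * (m + 1) := by
        rw [hD'] at h2; linear_combination h2
      have h4 : (1 : ℤ) < m := by
        by_contra h5
        have h6 : (m : ℤ) = 1 := by omega
        rw [h6] at hm'; omega
      have h5 : (kap u : ℤ) ≤ m + 1 := le_of_mul_le_mul_left h3 (by linarith)
      exact_mod_cast h5
    · right
      refine ⟨by rw [hζ]; simp, ?_⟩
      have h1 : (m : ℤ) * kap u * (D + kap u) ≤ (D - kap u) * (D + kap u) := by

        linear_combination habs1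
      have h2 : (m : ℤ) * kap u ≤ D - kap u := le_of_mul_le_mul_right h1 (by linarith)
      have h3 : ((m : ℤ) + 1) * (kap u + 1) ≤ (m + 1) * m := by
        rw [hD'] at h2; linear_combination h2
      have h5 : ((kap u : ℤ) + 1) ≤ m := le_of_mul_le_mul_left h3 (by linarith)
      exact_mod_cast h5
  · intro p hp
    rw [hs2 p hp]
    rcases hs1 p hp with h1 | h1
    · left; rw [h1]; simp
    · right; rw [h1]; simp
  · rw [sum_congr rfl hs2, ← sum_div]
    have h1 : ((∑ p ∈ NP u, s p : ℤ) : ℂ) = m * (kap u * (ζ * D - kap u)) := by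
      rw [hsum, hζ]; push_cast; ring
    push_cast at h1
    rw [h1]
    field_simp
  · intro hζ1 hκm p hp
    have hε1 : ε = 1 := by
      rcases hε with h1 | h1
      · exact h1
      · rw [hζ, h1] at hζ1; norm_num at hζ1
    have hκm' : (kap u : ℤ) = m + 1 := by exact_mod_cast hκm
    have := all_one (NP u) s hs1 (by
      rw [hsum, hcard, hε1, hκm', hD']; ring) p hp
    rw [hs2 p hp, this]; simp
  · intro hζ1 hκm p hp
    have hε1 : ε = -1 := by
      rcases hε with h1 | h1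
      · rw [hζ, h1] at hζ1; norm_num at hζ1
      · exact h1
    have hκm' : (kap u : ℤ) = m - 1 := by
      have : (kap u : ℤ) + 1 = m := by exact_mod_cast hκm
      linarith
    have := all_one (NP u) (fun p => - s p) (fun q hq => by
      rcases hs1 q hq with h1 | h1 <;> simp [h1]) (by
      rw [sum_neg_distrib, hsum, hcard, hε1, hκm', hD']; ring) p hp
    have h2 : s p = -1 := by linarith
    rw [hs2 p hp, h2]; simp

end Pool.Agent.X181.SIC
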